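import Pool.Agent.N753.AC.Stm

/-!
# Project AC (helper753), NRM (helper459): specialisation of the local data
-/

set_option autoImplicit false

namespace Pool.Agent.N459.AC

open NumberField IsDedekindDomain
open Pool.Agent.N753.AC

/-! ### Valuations -/

section val

variable {K : Type} [Field K] [NumberField K]

/-- the valuation ring of a finite place -/
noncomputable def Ow (v : FinitePlace K) : ValuationSubring K where
  carrier := {c | v c ≤ 1}
  mul_mem' := fun {a b} ha hb => by
    change v (a * b) ≤ 1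
    rw [map_mul]
    exact mul_le_one₀ ha (apply_nonneg v b) hb
  one_mem' := (map_one v).le
  add_mem' := fun {a b} ha hb => (FinitePlace.add_le v a b).trans (max_le ha hb)
  zero_mem' := by
    change v 0 ≤ 1
    rw [map_zero]
    exact zero_le_one
  neg_mem' := fun {a} ha => by
    change v (-a) ≤ 1
    rw [map_neg_eq_map]
    exact ha
  mem_or_inv_mem' := fun a => by
    rcases le_total (v a) 1 with h | h
    · exact Or.inl h
    · right
      change v a⁻¹ ≤ 1
      rw [map_inv₀]
      exact inv_le_one_of_one_le₀ h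

theorem mem_Ow {v : FinitePlace K} {c : K} : c ∈ Ow v ↔ v c ≤ 1 := Iff.rfl

/-- the valuation rings are integrally closed -/
theorem mem_of_monic {O : ValuationSubring K} {q : Polynomial K} (hq : q.Monic)
    (hc : ∀ i, q.coeff i ∈ O) {y : K} (hy : q.eval y = 0) : y ∈ O := by
  have hco : (↑q.coeffs : Set K) ⊆ O.toSubring := by
    intro c hc'
    obtain ⟨n, -, rfl⟩ := Polynomial.mem_coeffs_iff.1 hc'
    exact hc n
  have hint : IsIntegral O y := by
    refine ⟨q.toSubring O.toSubring hco, (Polynomial.monic_toSubring _ _ _).2 hq, ?_⟩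
    have h1 : Polynomial.eval₂ (algebraMap O K) y (q.toSubring O.toSubring hco) =
        ((q.toSubring O.toSubring hco).map (Subring.subtype O.toSubring)).eval y :=
      (Polynomial.eval_map _ _).symm
    rw [h1, Polynomial.map_toSubring]
    exact hy
  obtain ⟨c, hc⟩ := IsIntegrallyClosed.isIntegral_iff.1 hint
  rw [← hc]
  exact c.2

/-- elements which are integral at `v` are fractions -/
theorem exists_div (v : HeightOneSpectrum (𝓞 K)) {c : K} (hc : FinitePlace.mk v c ≤ 1) :
    ∃ n d : 𝓞 K, d ∉ v.asIdeal ∧ c * (d : K) = (n : K) := by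
  obtain ⟨n, d, h | h⟩ := HeightOneSpectrum.exists_primeCompl_mul_eq_or_mul_eq v c
  · exact ⟨n, d, d.2, h⟩
  · refine ⟨d, n, fun hn => ?_, h⟩
    have h1 : FinitePlace.mk v (n : K) < 1 := (FinitePlace.norm_lt_one_iff_mem K v n).2 hn
    have h2 : FinitePlace.mk v ((d : 𝓞 K) : K) = 1 :=
      (FinitePlace.norm_eq_one_iff_notMem K v (d : 𝓞 K)).2 d.2
    have h3 : FinitePlace.mk v c * FinitePlace.mk v (n : K) = FinitePlace.mk v ((d : 𝓞 K) : K) := by
      rw [← map_mul]
      exact congrArg _ h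
    rw [h2] at h3
    have h4 : FinitePlace.mk v c * FinitePlace.mk v (n : K) ≤ 1 * FinitePlace.mk v (n : K) :=
      mul_le_mul_of_nonneg_right hc (apply_nonneg _ _)
    rw [h3, one_mul] at h4
    exact absurd h1 (not_lt.2 h4)

variable {L : Type} [Field L] [NumberField L] [Algebra K L]

theorem notMem_above {v : HeightOneSpectrum (𝓞 K)} {w : HeightOneSpectrum (𝓞 L)}
    (hw : v.asIdeal.map (algebraMap (𝓞 K) (𝓞 L)) ≤ w.asIdeal) {d : 𝓞 K} (hd : d ∉ v.asIdeal) :
    algebraMap (𝓞 K) (𝓞 L) d ∉ w.asIdeal := by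
  have h1 : v.asIdeal ≤ w.asIdeal.comap (algebraMap (𝓞 K) (𝓞 L)) := Ideal.map_le_iff_le_comap.1 hw
  have h2 : w.asIdeal.comap (algebraMap (𝓞 K) (𝓞 L)) ≠ ⊤ :=
    Ideal.comap_ne_top _ w.isPrime.ne_top
  have h3 : v.asIdeal = w.asIdeal.comap (algebraMap (𝓞 K) (𝓞 L)) :=
    (v.isMaximal).eq_of_le h2 h1
  intro h
  apply hd
  rw [h3]
  exact h

theorem mk_coe (w : HeightOneSpectrum (𝓞 L)) (d : 𝓞 K) :
    FinitePlace.mk w (algebraMap K L (d : K)) =
      FinitePlace.mk w ((algebraMap (𝓞 K) (𝓞 L) d : 𝓞 L) : L) := rfl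

theorem above {v : HeightOneSpectrum (𝓞 K)} {w : HeightOneSpectrum (𝓞 L)}
    (hw : v.asIdeal.map (algebraMap (𝓞 K) (𝓞 L)) ≤ w.asIdeal) {c : K}
    (hc : FinitePlace.mk v c ≤ 1) : FinitePlace.mk w (algebraMap K L c) ≤ 1 ∧
      (FinitePlace.mk v c < 1 → FinitePlace.mk w (algebraMap K L c) < 1) ∧
      (FinitePlace.mk v c = 1 → FinitePlace.mk w (algebraMap K L c) = 1) := by
  obtain ⟨n, d, hd, hcd⟩ := exists_div v hc
  have hdv : FinitePlace.mk v (d : K) = 1 := (FinitePlace.norm_eq_one_iff_notMem K v d).2 hd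
  have hdw : FinitePlace.mk w (algebraMap K L (d : K)) = 1 := by
    rw [mk_coe]
    exact (FinitePlace.norm_eq_one_iff_notMem L w _).2 (notMem_above hw hd)
  have h1 : FinitePlace.mk v c = FinitePlace.mk v (n : K) := by
    rw [← hcd, map_mul, hdv, mul_one]
  have h2 : FinitePlace.mk w (algebraMap K L c) = FinitePlace.mk w (algebraMap K L (n : K)) := by
    rw [← hcd, map_mul, map_mul, hdw, mul_one]
  rw [h1, h2, mk_coe]
  refine ⟨FinitePlace.norm_le_one L w _, fun h => ?_, fun h => ?_⟩
  · have h3 : n ∈ v.asIdeal := (FinitePlace.norm_lt_one_iff_mem K v n).1 h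
    exact (FinitePlace.norm_lt_one_iff_mem L w _).2 (hw (Ideal.mem_map_of_mem _ h3))
  · have h3 : n ∉ v.asIdeal := (FinitePlace.norm_eq_one_iff_notMem K v n).1 h
    exact (FinitePlace.norm_eq_one_iff_notMem L w _).2 (notMem_above hw h3)

end val

/-! ### Integrality at almost all primes -/

section ev

variable {K : Type} [Field K] [NumberField K]

theorem ev_const (c : K) : ∀ᶠ v : HeightOneSpectrum (𝓞 K) in Filter.cofinite,
    FinitePlace.mk v c ≤ 1 := by
  by_cases hc : c = 0
  · refine Filter.Eventually.of_forall fun v => ?_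
    rw [hc, map_zero]
    exact zero_le_one
  · have h1 : (Function.mulSupport fun w : FinitePlace K => w c).Finite :=
      FinitePlace.hasFiniteMulSupport hc
    have h2 : (FinitePlace.mk ⁻¹' (Function.mulSupport fun w : FinitePlace K => w c)).Finite :=
      h1.preimage (fun v _ w _ h => FinitePlace.mk_eq_iff.1 h)
    rw [Filter.eventually_cofinite]
    refine h2.subset fun v hv => ?_
    intro h
    exact hv (le_of_eq h)

theorem ev_poly {m : ℕ} (f : MvPolynomial (Fin m) K) :
    ∀ᶠ v : HeightOneSpectrum (𝓞 K) in Filter.cofinite, ∀ x : Fin m → K,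
      (∀ i, FinitePlace.mk v (x i) ≤ 1) → FinitePlace.mk v (MvPolynomial.eval x f) ≤ 1 := by
  have h1 : ∀ᶠ v : HeightOneSpectrum (𝓞 K) in Filter.cofinite, ∀ d ∈ f.support,
      FinitePlace.mk v (f.coeff d) ≤ 1 :=
    (Filter.eventually_all_finset f.support).2 fun d _ => ev_const _
  filter_upwards [h1] with v hv x hx
  rw [← mem_Ow, MvPolynomial.eval_eq']
  refine sum_mem fun d hd => mul_mem (hv d hd) (prod_mem fun i _ => pow_mem (hx i) _)

variable {m : ℕ} {A : Type} [CommRing A] [Algebra (MvPolynomial (Fin m) K) A]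

/-- the values of `a` are integral above `v` -/
def AInt (v : HeightOneSpectrum (𝓞 K)) (a : A) : Prop :=
  ∀ (L : Type) [Field L] [NumberField L] [Algebra K L] (φ : A →+* L) (x : Fin m → K),
    (∀ f : MvPolynomial (Fin m) K, φ (algebraMap (MvPolynomial (Fin m) K) A f) =
      algebraMap K L (MvPolynomial.eval x f)) → (∀ i, FinitePlace.mk v (x i) ≤ 1) →
    ∀ w : HeightOneSpectrum (𝓞 L), v.asIdeal.map (algebraMap (𝓞 K) (𝓞 L)) ≤ w.asIdeal →
      FinitePlace.mk w (φ a) ≤ 1

theorem ev_int {a : A} (ha : IsIntegral (MvPolynomial (Fin m) K) a) :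
    ∀ᶠ v : HeightOneSpectrum (𝓞 K) in Filter.cofinite, AInt (m := m) v a := by
  obtain ⟨p, hp, hpa⟩ := ha
  have h1 : ∀ᶠ v : HeightOneSpectrum (𝓞 K) in Filter.cofinite, ∀ n ∈ Finset.range (p.natDegree + 1),
      ∀ x : Fin m → K, (∀ i, FinitePlace.mk v (x i) ≤ 1) →
        FinitePlace.mk v (MvPolynomial.eval x (p.coeff n)) ≤ 1 :=
    (Filter.eventually_all_finset _).2 fun n _ => ev_poly _
  filter_upwards [h1] with v hv L _ _ _ φ x hφ hx w hw
  rw [← mem_Ow]
  have hcomp : φ.comp (algebraMap (MvPolynomial (Fin m) K) A) =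
      (algebraMap K L).comp (MvPolynomial.eval x) := RingHom.ext hφ
  refine mem_of_monic (q := p.map (φ.comp (algebraMap (MvPolynomial (Fin m) K) A)))
    (hp.map _) (fun n => ?_) ?_
  · rw [Polynomial.coeff_map, hcomp]
    by_cases hn : n ∈ Finset.range (p.natDegree + 1)
    · exact (above hw (hv n hn x hx)).1
    · have h2 : p.coeff n = 0 := by
        apply Polynomial.coeff_eq_zero_of_natDegree_lt
        rw [Finset.mem_range] at hn
        omega
      rw [h2, map_zero]
      exact zero_mem _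
  · rw [Polynomial.eval_map, ← Polynomial.hom_eval₂, hpa, map_zero]

end ev

/-! ### The norm -/

theorem norm_eq_det {K L : Type} [Field K] [Field L] [Algebra K L] {N : ℕ} [FiniteDimensional K L]
    (hN : Module.finrank K L = N) (w : Fin N → L) (c : K) (hc : c ≠ 0)
    (hspan : ∀ y : L, ∃ r : Fin N → K, algebraMap K L c * y = ∑ i, algebraMap K L (r i) * w i)
    (y : L) (M : Matrix (Fin N) (Fin N) K)
    (hM : ∀ i, y * w i = ∑ j, algebraMap K L (M i j) * w j) : Algebra.norm K y = M.det := by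
  classical
  have hc' : algebraMap K L c ≠ 0 := by
    rw [Ne, map_eq_zero]
    exact hc
  have htop : ⊤ ≤ Submodule.span K (Set.range w) := by
    intro y _
    obtain ⟨r, hr⟩ := hspan y
    have h1 : y = ∑ i, (c⁻¹ * r i) • w i := by
      have h2 : y = (algebraMap K L c)⁻¹ * (algebraMap K L c * y) := by
        rw [← mul_assoc, inv_mul_cancel₀ hc', one_mul]
      rw [h2, hr, Finset.mul_sum]
      refine Finset.sum_congr rfl fun i _ => ?_
      rw [Algebra.smul_def, map_mul, map_inv₀, mul_assoc]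
    rw [h1]
    exact Submodule.sum_mem _ fun i _ => Submodule.smul_mem _ _ (Submodule.subset_span ⟨i, rfl⟩)
  set B := basisOfTopLeSpanOfCardEqFinrank w htop (by rw [Fintype.card_fin, hN]) with hB
  have hBw : ∀ i, B i = w i := fun i => by rw [hB, coe_basisOfTopLeSpanOfCardEqFinrank]
  rw [Algebra.norm_eq_matrix_det B, ← Matrix.det_transpose]
  congr 1
  ext i j
  rw [Matrix.transpose_apply, Algebra.leftMulMatrix_eq_repr_mul, hBw i, hM i, map_sum,
    Finsupp.finsetSum_apply, Finset.sum_eq_single j]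
  · rw [← hBw j]
    have h1 : algebraMap K L (M i j) * B j = M i j • B j := by rw [Algebra.smul_def]
    rw [h1, map_smul, Module.Basis.repr_self, Finsupp.smul_apply, Finsupp.single_eq_same,
      smul_eq_mul, mul_one]
  · intro l _ hl
    rw [← hBw l]
    have h1 : algebraMap K L (M i l) * B l = M i l • B l := by rw [Algebra.smul_def]
    rw [h1, map_smul, Module.Basis.repr_self, Finsupp.smul_apply,
      Finsupp.single_eq_of_ne hl.symm, smul_zero]
  · intro h
    exact absurd (Finset.mem_univ _) h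

/-- **NRM** -/
theorem nrm : Pool.Agent.N753.AC.StmLOC → Pool.Agent.N753.AC.StmNRM := by
  intro hLOC K _ _ m A _ _ _ _ _ _ F Y s hF hs
  classical
  obtain ⟨ω, z, g₀, M, E, b, hg₀, hM, hdet, hspan, hzE⟩ :=
    hLOC (MvPolynomial (Fin m) K) A F Y s (Module.finrank (MvPolynomial (Fin m) K) A) hF.prime
      rfl hs
  -- the multiplicity of `F` in the determinant
  obtain ⟨t, ht, h, hdeth, hFh⟩ : ∃ t ≤ s, ∃ h, M.det = F ^ t * h ∧ ¬ F ∣ h := by
    have hfin : FiniteMultiplicity F M.det := ⟨s, hdet⟩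
    obtain ⟨h, h1, h2⟩ := hfin.exists_eq_pow_mul_and_not_dvd
    refine ⟨_, ?_, h, h1, h2⟩
    by_contra hcon
    exact hdet ((pow_dvd_pow _ (by omega)).trans ⟨h, h1⟩)
  have hint : ∀ a : A, IsIntegral (MvPolynomial (Fin m) K) a := fun a =>
    Algebra.IsIntegral.isIntegral a
  have hev : ∀ᶠ v : HeightOneSpectrum (𝓞 K) in Filter.cofinite,
      ((∀ x : Fin m → K, (∀ i, FinitePlace.mk v (x i) ≤ 1) →
        FinitePlace.mk v (MvPolynomial.eval x g₀) ≤ 1) ∧
      (∀ x : Fin m → K, (∀ i, FinitePlace.mk v (x i) ≤ 1) →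
        FinitePlace.mk v (MvPolynomial.eval x h) ≤ 1)) ∧
      AInt (m := m) v z ∧ (∀ y ∈ Y, AInt (m := m) v y) ∧ ∀ y ∈ Y, AInt (m := m) v (b y) :=
    ((ev_poly g₀).and (ev_poly h)).and ((ev_int (hint z)).and
      (((Filter.eventually_all_finset Y).2 fun y _ => ev_int (hint y)).and
        ((Filter.eventually_all_finset Y).2 fun y _ => ev_int (hint (b y)))))
  rw [Filter.eventually_cofinite] at hev
  refine ⟨g₀ * h, hev.toFinset, fun hd => ?_, ?_⟩
  · rcases hF.prime.dvd_or_dvd hd with h1 | h1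
    · exact hg₀ h1
    · exact hFh h1
  intro L _ _ _ φ x hφs hfr hφ v hv hx hFx hgx
  have hv' := hv
  rw [Set.Finite.mem_toFinset, Set.mem_ofPred_eq, not_not] at hv'
  obtain ⟨⟨hvg, hvh⟩, hvz, hvY, hvb⟩ := hv'
  rw [map_mul, map_mul] at hgx
  have hg1 : FinitePlace.mk v (MvPolynomial.eval x g₀) = 1 := by
    have h1 := hvg x hx
    have h2 := hvh x hx
    have h3 : (0 : ℝ) ≤ FinitePlace.mk v (MvPolynomial.eval x g₀) := apply_nonneg _ _
    refine le_antisymm h1 ?_
    rw [← hgx]
    exact mul_le_of_le_one_right h3 h2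
  have hh1 : FinitePlace.mk v (MvPolynomial.eval x h) = 1 := by
    rw [hg1, one_mul] at hgx
    exact hgx
  have hNv : (1 : ℝ) < (Ideal.absNorm v.asIdeal : ℝ) := by
    exact_mod_cast HeightOneSpectrum.one_lt_absNorm v
  have hFlt : FinitePlace.mk v (MvPolynomial.eval x F) < 1 := by
    rw [hFx]
    exact inv_lt_one_of_one_lt₀ hNv
  have hg0 : MvPolynomial.eval x g₀ ≠ 0 := by
    intro h0
    rw [h0, map_zero] at hg1
    exact zero_ne_one hg1
  refine ⟨φ z, ?_, fun w hw => ⟨hvz L φ x hφ hx w hw, fun y hy => hvY y hy L φ x hφ hx w hw,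
    ?_⟩⟩
  · -- the norm
    have hnorm : Algebra.norm K (algebraMap K L (MvPolynomial.eval x g₀) * φ z) =
        MvPolynomial.eval x M.det := by
      have h1 := norm_eq_det hfr (fun i => φ (ω i)) (MvPolynomial.eval x g₀) hg0 (by
        intro y
        obtain ⟨a, rfl⟩ := hφs y
        obtain ⟨r, hr⟩ := hspan a
        refine ⟨fun i => MvPolynomial.eval x (r i), ?_⟩
        have h2 := congrArg φ hr
        rw [map_mul, hφ, map_sum] at h2
        rw [h2]
        refine Finset.sum_congr rfl fun i _ => ?_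
        rw [map_mul, hφ]) (algebraMap K L (MvPolynomial.eval x g₀) * φ z)
        ((MvPolynomial.eval x).mapMatrix M) (by
        intro i
        have h2 := congrArg φ (hM i)
        rw [map_mul, map_mul, hφ, map_sum] at h2
        rw [h2]
        refine Finset.sum_congr rfl fun j _ => ?_
        rw [map_mul, hφ]
        rfl)
      rw [h1, RingHom.map_det]
    rw [map_mul, Algebra.norm_algebraMap, hdeth, map_mul, map_pow] at hnorm
    have h1 := congrArg (FinitePlace.mk v) hnorm
    rw [map_mul, map_mul, map_pow, map_pow, hg1, one_pow, one_mul, hh1, mul_one, hFx] at h1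
    rw [h1, ← inv_pow]
    exact pow_le_pow_of_le_one (inv_nonneg.2 (by positivity)) (inv_le_one_of_one_le₀ hNv.le) ht
  · rintro ⟨y, hy, hy1⟩
    have h1 := congrArg φ (hzE y hy)
    rw [map_mul, map_mul, map_pow, map_mul, hφ, hφ] at h1
    have h2 := congrArg (FinitePlace.mk w) h1
    rw [map_mul, map_mul, map_pow, map_mul, hy1, one_mul] at h2
    have h3 := (above hw hg1.le).2.2 hg1
    have h4 := (above hw hFlt.le).2.1 hFlt
    rw [h3, one_mul] at h2
    have h5 : FinitePlace.mk w (φ (b y)) ≤ 1 := hvb y hy L φ x hφ hx w hw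
    have h6 : FinitePlace.mk w (φ z) ^ E < 1 := by
      rw [h2]
      have h7 : (0 : ℝ) ≤ FinitePlace.mk w (algebraMap K L (MvPolynomial.eval x F)) :=
        apply_nonneg _ _
      exact lt_of_le_of_lt (mul_le_of_le_one_right h7 h5) h4
    by_contra h7
    exact absurd (one_le_pow₀ (not_lt.1 h7)) (not_le.2 h6)

end Pool.Agent.N459.AC
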